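import Mathlib

set_option autoImplicit false

namespace Pool.Agent.Results.MP_51bcab_lc.Counter

open FreeMonoid

/-- the set of factors of words of `L` -/
def Fac {A : Type} (L : Set (FreeMonoid A)) : Set (FreeMonoid A) := {u | ∃ x y, x * u * y ∈ L}

/-- `X` is the minimal generating set of the submonoid it generates -/
def IsMinGen {A : Type} (X : Set (FreeMonoid A)) : Prop :=
  1 ∉ X ∧ ∀ l : List (FreeMonoid A), 2 ≤ l.length → (∀ x ∈ l, x ∈ X) → l.prod ∉ X

/-- `M` is an `L`-maximal submonoid -/
def IsMaxIn {A : Type} (L : Set (FreeMonoid A)) (M : Submonoid (FreeMonoid A)) : Prop :=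
  (M : Set (FreeMonoid A)) ⊆ L ∧
    ∀ N : Submonoid (FreeMonoid A), M ≤ N → (N : Set (FreeMonoid A)) ⊆ L → N = M

def nb : ℕ → List Bool → Prop
  | _, [] => True
  | _, false :: w => nb 0 w
  | s, true :: w => s ≤ 2 ∧ nb (s + 1) w

theorem nb_mono (w : List Bool) : ∀ s s', s' ≤ s → nb s w → nb s' w := by
  induction w with
  | nil => intros; trivial
  | cons c w ih =>
    intro s s' h hw
    cases c with
    | false => exact hw
    | true => exact ⟨h.trans hw.1, ih _ _ (by omega) hw.2⟩

theorem nb_left (x u : List Bool) : ∀ s, nb s (x ++ u) → nb 0 u := by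
  induction x with
  | nil => intro s h; exact nb_mono _ _ _ (Nat.zero_le _) h
  | cons c x ih =>
    intro s h
    cases c with
    | false => exact ih _ h
    | true => exact ih _ h.2

theorem nb_right (u y : List Bool) : ∀ s, nb s (u ++ y) → nb s u := by
  induction u with
  | nil => intros; trivial
  | cons c u ih =>
    intro s h
    cases c with
    | false => exact ih _ h
    | true => exact ⟨h.1, ih _ h.2⟩

def Y : Set (FreeMonoid Bool) := {ofList [false], ofList [false, true, true], ofList [true, false],
  ofList [true, false, true], ofList [true, false, true, true]}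

def X : Set (FreeMonoid Bool) := insert (ofList [false, true]) Y

theorem X_cases {x : FreeMonoid Bool} (h : x ∈ X) : x = ofList [false, true] ∨
    x = ofList [false] ∨ x = ofList [false, true, true] ∨ x = ofList [true, false] ∨
    x = ofList [true, false, true] ∨ x = ofList [true, false, true, true] := h

theorem L1 {w : FreeMonoid Bool} (h : w ∈ Submonoid.closure X) : nb 2 (toList w ++ [true]) := by
  induction h using Submonoid.closure_induction_left with
  | one => exact ⟨le_rfl, trivial⟩
  | mul_left x hx y _ ih =>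
    have h0 := nb_mono _ _ 0 (by omega) ih
    have h1 := nb_mono _ _ 1 (by omega) ih
    rcases X_cases hx with rfl | rfl | rfl | rfl | rfl | rfl <;>
      simp [toList_mul, nb, h0, h1, ih]

theorem step {S : Set (FreeMonoid Bool)} (x : List Bool) (hx : ofList x ∈ S) {w : List Bool}
    (hw : ofList w ∈ Submonoid.closure S) : ofList (x ++ w) ∈ Submonoid.closure S :=
  Submonoid.mul_mem _ (Submonoid.subset_closure hx) hw

theorem L2 (w : List Bool) :
    (nb 0 (w ++ [true]) → ofList (false :: w) ∈ Submonoid.closure X ∧
      ofList (true :: false :: w) ∈ Submonoid.closure X) ∧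
    (nb 1 (w ++ [true]) → ofList (false :: true :: w) ∈ Submonoid.closure X ∧
      ofList (true :: false :: true :: w) ∈ Submonoid.closure X) ∧
    (nb 2 (w ++ [true]) → ofList w ∈ Submonoid.closure X) ∧
    (nb 3 (w ++ [true]) → ofList (true :: w) ∈ Submonoid.closure X) := by
  have m1 : ofList [false] ∈ X := by simp [X, Y]
  have m2 : ofList [true, false] ∈ X := by simp [X, Y]
  have m3 : ofList [false, true] ∈ X := by simp [X, Y]
  have m4 : ofList [true, false, true] ∈ X := by simp [X, Y]
  have m5 : ofList [false, true, true] ∈ X := by simp [X, Y]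
  have m6 : ofList [true, false, true, true] ∈ X := by simp [X, Y]
  induction w with
  | nil =>
    exact ⟨fun _ => ⟨Submonoid.subset_closure m1, Submonoid.subset_closure m2⟩,
      fun _ => ⟨Submonoid.subset_closure m3, Submonoid.subset_closure m4⟩,
      fun _ => Submonoid.one_mem _, fun h => absurd h.1 (by omega)⟩
  | cons c w ih =>
    cases c with
    | false =>
      exact ⟨fun h => ⟨step _ m1 (ih.1 h).1, step _ m2 (ih.1 h).1⟩,
        fun h => ⟨step _ m3 (ih.1 h).1, step _ m4 (ih.1 h).1⟩,
        fun h => (ih.1 h).1, fun h => (ih.1 h).2⟩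
    | true =>
      exact ⟨fun h => ih.2.1 h.2, fun h => ⟨step _ m5 (ih.2.2.1 h.2), step _ m6 (ih.2.2.1 h.2)⟩,
        fun h => ih.2.2.2 h.2, fun h => absurd h.1 (by omega)⟩

theorem L3 {w : FreeMonoid Bool} (h : w ∈ Submonoid.closure X) :
    ofList (toList w ++ [false]) ∈ Submonoid.closure Y ∧
      ofList (false :: true :: (toList w ++ [false])) ∈ Submonoid.closure Y := by
  have m1 : ofList [false] ∈ Y := by simp [Y]
  have m2 : ofList [true, false] ∈ Y := by simp [Y]
  have m4 : ofList [true, false, true] ∈ Y := by simp [Y]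
  have m5 : ofList [false, true, true] ∈ Y := by simp [Y]
  have m6 : ofList [true, false, true, true] ∈ Y := by simp [Y]
  induction h using Submonoid.closure_induction_left with
  | one => exact ⟨Submonoid.subset_closure m1, step _ m1 (Submonoid.subset_closure m2)⟩
  | mul_left x hx y _ ih =>
    rcases X_cases hx with rfl | rfl | rfl | rfl | rfl | rfl
    · exact ⟨ih.2, step _ m1 (step _ m4 ih.1)⟩
    · exact ⟨step _ m1 ih.1, step _ m1 (step _ m2 ih.1)⟩
    · exact ⟨step _ m5 ih.1, step _ m1 (step _ m6 ih.1)⟩
    · exact ⟨step _ m2 ih.1, step _ m5 (step _ m1 ih.1)⟩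
    · exact ⟨step _ m4 ih.1, step _ m5 ih.2⟩
    · exact ⟨step _ m6 ih.1, step _ m5 (step _ m5 ih.1)⟩

theorem count_prod (l : List (FreeMonoid Bool)) (h : ∀ x ∈ l, x ∈ X) :
    (toList l.prod).count false = l.length := by
  induction l with
  | nil => rfl
  | cons x l ih =>
    rw [List.prod_cons, toList_mul, List.count_append, ih fun y hy => h y (by simp [hy])]
    rcases X_cases (h x (by simp)) with rfl | rfl | rfl | rfl | rfl | rfl <;> simp <;> omega

theorem result : ∃ (A : Type) (_ : Finite A) (X Y : Set (FreeMonoid A)), Y ⊂ X ∧ IsMinGen X ∧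
    IsMaxIn (Fac (Submonoid.closure X : Set (FreeMonoid A))) (Submonoid.closure X) ∧
    Fac (Submonoid.closure Y : Set (FreeMonoid A)) =
      Fac (Submonoid.closure X : Set (FreeMonoid A)) := by
  refine ⟨Bool, inferInstance, X, Y, Set.ssubset_insert ?_, ⟨?_, ?_⟩, ⟨?_, ?_⟩, ?_⟩
  · simp only [Y, Set.mem_insert_iff, Set.mem_singleton_iff, ofList.injective.eq_iff]
    decide
  · intro h
    have := count_prod [1] (by simpa using h)
    simp at this
  · intro l hl h1 h2
    have e1 := count_prod l h1
    have e2 := count_prod [l.prod] (by simpa using h2)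
    rw [List.prod_singleton, e1, List.length_singleton] at e2
    omega
  · intro w hw
    exact ⟨1, 1, by simpa using hw⟩
  · intro N hN hF
    refine le_antisymm (fun w hw => ?_) hN
    have h1 : ofList [false, true, true] * w * ofList [true, false] ∈ N :=
      N.mul_mem (N.mul_mem (hN (Submonoid.subset_closure (by simp [X, Y]))) hw)
        (hN (Submonoid.subset_closure (by simp [X, Y])))
    obtain ⟨x, y, h2⟩ := hF h1
    have h3 := L1 h2
    simp only [toList_mul, toList_ofList, List.append_assoc] at h3
    have h4 := nb_left _ _ _ h3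
    have h5 : nb 2 ((toList w ++ [true]) ++ (false :: (toList y ++ [true]))) := by
      simpa [nb] using h4
    exact (L2 (toList w)).2.2.1 (nb_right _ _ _ h5)
  · ext u
    constructor
    · rintro ⟨x, y, h⟩
      exact ⟨x, y, Submonoid.closure_mono (Set.subset_insert _ _) h⟩
    · rintro ⟨x, y, h⟩
      exact ⟨x, y * ofList [false], by rw [← mul_assoc]; exact (L3 h).1⟩

end Pool.Agent.Results.MP_51bcab_lc.Counter
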